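import Pool.Agent.N557.CV.Stm

set_option autoImplicit false

/-!
# Project CV of helper557, leaf NUM
-/

namespace Pool.Agent.N914.CV

open Pool.Agent.N557.CV Filter
open scoped ENNReal

lemma cast_rpow (n : ℕ) (p : ℝ) (hp : 0 ≤ p) :
    (n : ℝ≥0∞) ^ p = ENNReal.ofReal ((n : ℝ) ^ p) := by
  rw [← ENNReal.ofReal_rpow_of_nonneg (Nat.cast_nonneg n) hp, ENNReal.ofReal_natCast]

/-- transfer of an inequality from the real numbers -/
lemma transfer (K n m : ℕ) (a b c d e p : ℝ) (ha : 0 ≤ a) (hb : 0 ≤ b) (hc : 0 ≤ c) (hd : 0 ≤ d)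
    (he : 0 ≤ e) (hp : 0 ≤ p) (h : (K : ℝ) * ((n : ℝ) ^ a * (m : ℝ) ^ b + (n : ℝ) ^ c * (m : ℝ) ^ d) ≤
      (m : ℝ) ^ e * (n : ℝ) ^ p) :
    (K : ℝ≥0∞) * ((n : ℝ≥0∞) ^ a * (m : ℝ≥0∞) ^ b + (n : ℝ≥0∞) ^ c * (m : ℝ≥0∞) ^ d) ≤
      (m : ℝ≥0∞) ^ e * (n : ℝ≥0∞) ^ p := by
  rw [cast_rpow n a ha, cast_rpow m b hb, cast_rpow n c hc, cast_rpow m d hd, cast_rpow m e he,
    cast_rpow n p hp, ← ENNReal.ofReal_natCast K, ← ENNReal.ofReal_mul (by positivity),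
    ← ENNReal.ofReal_mul (by positivity), ← ENNReal.ofReal_mul (by positivity),
    ← ENNReal.ofReal_add (by positivity) (by positivity), ← ENNReal.ofReal_mul (by positivity)]
  exact ENNReal.ofReal_le_ofReal h

lemma sq_rpow (x : ℝ) (hx : 0 ≤ x) (p : ℝ) : (x ^ 2) ^ p = x ^ (2 * p) := by
  rw [← Real.rpow_natCast, ← Real.rpow_mul hx]
  norm_num

theorem t_numa : S_NUMA := by
  intro p hp1 hp2 K
  have h1 : Tendsto (fun m : ℕ => (m : ℝ) ^ (p - 1)) atTop atTop :=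
    (tendsto_rpow_atTop (by linarith)).comp tendsto_natCast_atTop_atTop
  have h2 : Tendsto (fun m : ℕ => (m : ℝ) ^ (2 - p)) atTop atTop :=
    (tendsto_rpow_atTop (by linarith)).comp tendsto_natCast_atTop_atTop
  obtain ⟨m, hm1, hm2, hm3⟩ := ((h1.eventually_ge_atTop (2 * (K : ℝ))).and
    ((h2.eventually_ge_atTop (2 * (K : ℝ))).and (eventually_ge_atTop 1))).exists
  refine ⟨m ^ 2, m, by positivity, by omega, ?_⟩
  have key := transfer K (m ^ 2) m 1 p p (p - 1) 1 p (by norm_num) (by linarith) (by linarith)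
    (by linarith) (by norm_num) (by linarith) ?_
  · simpa only [ENNReal.rpow_one] using key
  have hx : (0 : ℝ) < m := by exact_mod_cast hm3
  obtain ⟨x, hxm⟩ : ∃ x : ℝ, x = (m : ℝ) := ⟨_, rfl⟩
  push_cast
  rw [← hxm] at hx hm1 hm2 ⊢
  rw [Real.rpow_one, Real.rpow_one, sq_rpow x hx.le p]
  have e1 : x ^ 2 * x ^ p * x ^ (p - 1) = x * x ^ (2 * p) := by
    rw [← Real.rpow_natCast, ← Real.rpow_add hx, ← Real.rpow_add hx,
      show x * x ^ (2 * p) = x ^ (1 : ℝ) * x ^ (2 * p) by rw [Real.rpow_one], ← Real.rpow_add hx]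
    congr 1
    push_cast
    ring
  have e2 : x ^ (2 * p) * x ^ (p - 1) * x ^ (2 - p) = x * x ^ (2 * p) := by
    rw [← Real.rpow_add hx, ← Real.rpow_add hx,
      show x * x ^ (2 * p) = x ^ (1 : ℝ) * x ^ (2 * p) by rw [Real.rpow_one], ← Real.rpow_add hx]
    congr 1
    ring
  have f1 : 2 * (K : ℝ) * (x ^ 2 * x ^ p) ≤ x * x ^ (2 * p) := by
    rw [← e1, mul_comm (x ^ 2 * x ^ p)]
    exact mul_le_mul_of_nonneg_right hm1 (by positivity)
  have f2 : 2 * (K : ℝ) * (x ^ (2 * p) * x ^ (p - 1)) ≤ x * x ^ (2 * p) := by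
    rw [← e2, mul_comm (x ^ (2 * p) * x ^ (p - 1)) (x ^ (2 - p))]
    exact mul_le_mul_of_nonneg_right hm2 (by positivity)
  linarith

theorem t_numb : S_NUMB := by
  intro p hp K
  have h1 : Tendsto (fun m : ℕ => (m : ℝ) ^ (p - 2)) atTop atTop :=
    (tendsto_rpow_atTop (by linarith)).comp tendsto_natCast_atTop_atTop
  have h2 : Tendsto (fun m : ℕ => (m : ℝ)) atTop atTop := tendsto_natCast_atTop_atTop
  obtain ⟨n, hm1, hm2, hm3⟩ := ((h1.eventually_ge_atTop (2 * (K : ℝ))).and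
    ((h2.eventually_ge_atTop (2 * (K : ℝ))).and (eventually_ge_atTop 1))).exists
  refine ⟨n, n ^ 2, by omega, by positivity, ?_⟩
  have key := transfer K n (n ^ 2) 1 p p (p - 1) p (p - 1) (by norm_num) (by linarith) (by linarith)
    (by linarith) (by linarith) (by linarith) ?_
  · simpa only [ENNReal.rpow_one] using key
  have hx : (0 : ℝ) < n := by exact_mod_cast hm3
  obtain ⟨x, hxm⟩ : ∃ x : ℝ, x = (n : ℝ) := ⟨_, rfl⟩
  push_cast
  rw [← hxm] at hx hm1 hm2 ⊢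
  rw [Real.rpow_one, sq_rpow x hx.le p, sq_rpow x hx.le (p - 1)]
  have e1 : x * x ^ (2 * p) * x ^ (p - 2) = x ^ (2 * p) * x ^ (p - 1) := by
    rw [show x * x ^ (2 * p) = x ^ (1 : ℝ) * x ^ (2 * p) by rw [Real.rpow_one], ← Real.rpow_add hx,
      ← Real.rpow_add hx, ← Real.rpow_add hx]
    congr 1
    ring
  have e2 : x ^ p * x ^ (2 * (p - 1)) * x = x ^ (2 * p) * x ^ (p - 1) := by
    rw [show x ^ p * x ^ (2 * (p - 1)) * x = x ^ p * x ^ (2 * (p - 1)) * x ^ (1 : ℝ) by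
      rw [Real.rpow_one], ← Real.rpow_add hx, ← Real.rpow_add hx, ← Real.rpow_add hx]
    congr 1
    ring
  have f1 : 2 * (K : ℝ) * (x * x ^ (2 * p)) ≤ x ^ (2 * p) * x ^ (p - 1) := by
    rw [← e1, mul_comm (x * x ^ (2 * p))]
    exact mul_le_mul_of_nonneg_right hm1 (by positivity)
  have f2 : 2 * (K : ℝ) * (x ^ p * x ^ (2 * (p - 1))) ≤ x ^ (2 * p) * x ^ (p - 1) := by
    rw [← e2, mul_comm (x ^ p * x ^ (2 * (p - 1))) x]
    exact mul_le_mul_of_nonneg_right hm2 (by positivity)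
  linarith

end Pool.Agent.N914.CV
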